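import Mathlib
import Pool.Agent.PnMn.Combine

set_option autoImplicit false

/-!
# `p_n = m_n` on a set of positive upper density (negative answer to Q1)
-/

namespace Pool.Agent.Results.MP_06aaae_nt.EqualUpperDensity

open Filter Topology

/-- `p_n`: the least prime `p` with `p ≡ 1 (mod n)`. -/
noncomputable def leastPrime (n : ℕ) : ℕ := sInf {p : ℕ | p.Prime ∧ p ≡ 1 [MOD n]}

/-- `m_n`: the least positive integer `m` such that `n` divides `φ(m)`. -/
noncomputable def leastTotient (n : ℕ) : ℕ := sInf {m : ℕ | 0 < m ∧ n ∣ Nat.totient m}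

/-- The number of positive integers `n ≤ x` that lie in `A`. -/
noncomputable def count (A : Set ℕ) (x : ℕ) : ℕ := (A ∩ Set.Icc 1 x).ncard

/-- The set `A` of positive integers has natural density `0`. -/
def DensityZero (A : Set ℕ) : Prop :=
  Tendsto (fun x : ℕ => (count A x : ℝ) / x) atTop (𝓝 0)

/-- The property `P` holds for almost all positive integers `n`. -/
def AlmostAll (P : ℕ → Prop) : Prop := DensityZero {n : ℕ | ¬ P n}

/-- The set of `n` with `p_n = m_n` has positive upper density, so the statement of Q1 fails. -/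
theorem result :
    (∃ c : ℝ, 0 < c ∧ ∀ x₀ : ℕ, ∃ x ≥ x₀,
      c * (x : ℝ) ≤ (count {n : ℕ | leastPrime n = leastTotient n} x : ℝ)) ∧
    ¬ AlmostAll (fun n => leastTotient n < leastPrime n) := by
  have h1 : ∃ c : ℝ, 0 < c ∧ ∀ x₀ : ℕ, ∃ x ≥ x₀,
      c * (x : ℝ) ≤ (count {n : ℕ | leastPrime n = leastTotient n} x : ℝ) :=
    PnMn.upper_density PnMn.finalDensity_holds
  refine ⟨h1, fun hA => ?_⟩
  obtain ⟨c, hc, hx⟩ := h1
  unfold AlmostAll DensityZero at hA
  rw [Metric.tendsto_atTop] at hA
  obtain ⟨X, hX⟩ := hA c hc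
  obtain ⟨x, hxX, hcx⟩ := hx (X + 1)
  have h2 := hX x (by omega)
  have hxpos : (0 : ℝ) < x := by exact_mod_cast (by omega : 0 < x)
  rw [Real.dist_eq, sub_zero, abs_of_nonneg (by positivity), div_lt_iff₀ hxpos] at h2
  have h3 : count {n : ℕ | leastPrime n = leastTotient n} x
      ≤ count {n : ℕ | ¬ leastTotient n < leastPrime n} x := by
    apply Set.ncard_le_ncard _ ((Set.finite_Icc 1 x).subset Set.inter_subset_right)
    intro n hn
    refine ⟨?_, hn.2⟩
    have h4 : leastPrime n = leastTotient n := hn.1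
    simp only [Set.mem_ofPred_eq, not_lt]
    exact h4.le
  have h5 : (count {n : ℕ | leastPrime n = leastTotient n} x : ℝ)
      ≤ (count {n : ℕ | ¬ leastTotient n < leastPrime n} x : ℝ) := by exact_mod_cast h3
  linarith

end Pool.Agent.Results.MP_06aaae_nt.EqualUpperDensity
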