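import Mathlib
import Pool.Agent.PnMn.Combine

set_option autoImplicit false

/-!
# The ratio `p_n / m_n` does not tend to infinity along any set of density one
(negative answer to Q2)
-/

namespace Pool.Agent.Results.MP_06aaae_nt.RatioNotToInfinity

open Filter Topology

/-- `p_n`: the least prime `p` with `p ≡ 1 (mod n)`. -/
noncomputable def leastPrime (n : ℕ) : ℕ := sInf {p : ℕ | p.Prime ∧ p ≡ 1 [MOD n]}

/-- `m_n`: the least positive integer `m` such that `n` divides `φ(m)`. -/
noncomputable def leastTotient (n : ℕ) : ℕ := sInf {m : ℕ | 0 < m ∧ n ∣ Nat.totient m}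

/-- The set `S` of positive integers has natural density `1`. -/
def DensityOne (S : Set ℕ) : Prop :=
  Tendsto (fun x : ℕ => ((S ∩ Set.Icc 1 x).ncard : ℝ) / x) atTop (𝓝 1)

/-- For every set `S` of natural density `1`, the ratio `p_n / m_n` does not tend to infinity
as `n → ∞` with `n ∈ S`. -/
theorem result (S : Set ℕ) (hS : DensityOne S) :
    ¬ Tendsto (fun n : ℕ => (leastPrime n : ℝ) / leastTotient n) (atTop ⊓ 𝓟 S) atTop := by
  obtain ⟨c, hc, hx⟩ := PnMn.upper_density PnMn.finalDensity_holds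
  have hS' : Tendsto (fun x : ℕ => (((Sᶜ ∩ Set.Icc 1 x).ncard : ℕ) : ℝ) / x) atTop (𝓝 0) := by
    have h1 : Tendsto (fun x : ℕ => 1 - ((S ∩ Set.Icc 1 x).ncard : ℝ) / x) atTop (𝓝 (1 - 1)) :=
      hS.const_sub 1
    rw [sub_self] at h1
    refine h1.congr' ?_
    filter_upwards [eventually_ge_atTop 1] with x hx
    have hx0 : (x : ℝ) ≠ 0 := by positivity
    have h2 : (S ∩ Set.Icc 1 x).ncard + (Sᶜ ∩ Set.Icc 1 x).ncard = x := by
      have h3 : (Set.Icc 1 x).ncard = x := by
        rw [← Finset.coe_Icc, Set.ncard_coe_finset]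
        simp
      have h4 := Set.ncard_inter_add_ncard_sdiff_eq_ncard (Set.Icc 1 x) S (Set.finite_Icc 1 x)
      rw [h3] at h4
      rw [Set.inter_comm S, Set.inter_comm Sᶜ]
      exact h4
    have h5 : ((S ∩ Set.Icc 1 x).ncard : ℝ) + ((Sᶜ ∩ Set.Icc 1 x).ncard : ℝ) = x := by
      exact_mod_cast h2
    field_simp
    linarith
  have hfreq := PnMn.frequently_of_density hc hx hS'
  intro hT
  have h6 : ∀ᶠ n in atTop ⊓ 𝓟 S, (2 : ℝ) ≤ (leastPrime n : ℝ) / leastTotient n :=
    hT.eventually_ge_atTop 2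
  rw [eventually_inf_principal, eventually_atTop] at h6
  obtain ⟨N, hN⟩ := h6
  obtain ⟨n, hnN, hnA, hnS⟩ := hfreq N
  have h7 := hN n hnN hnS
  have h8 : leastPrime n = leastTotient n := hnA
  rw [h8] at h7
  have h9 := div_self_le_one (leastTotient n : ℝ)
  linarith

end Pool.Agent.Results.MP_06aaae_nt.RatioNotToInfinity
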